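import Mathlib

/-!
# MP_6f9abf_an: continuity of σ-stable maps under the two topologies of a random locally convex module

Every σ-stable map `f : G → G` that is continuous for the `(ε, λ)`-topology is continuous for the
locally `L⁰`-convex topology.
-/

open MeasureTheory Filter Topology
open scoped ENNReal NNReal

namespace Pool.Agent.Results.MP_6f9abf_an.StableContinuity

section definitions

variable {Ω : Type*} [MeasurableSpace Ω]

/-- A countable measurable partition of `Ω` (members may be empty). -/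
structure IsPartition (A : ℕ → Set Ω) : Prop where
  meas : ∀ n, MeasurableSet (A n)
  disj : ∀ m n, m ≠ n → Disjoint (A m) (A n)
  cover : ∀ ω, ∃ n, ω ∈ A n

variable (P : Measure Ω) (𝕜 : Type*) [RCLike 𝕜] (E : Type*) [AddCommGroup E]

/-- `E` is a module over the algebra `L⁰(F, 𝕜) = (Ω →ₘ[P] 𝕜)`. -/
class L0Module extends SMul (Ω →ₘ[P] 𝕜) E where
  one_smul' : ∀ x : E, (1 : Ω →ₘ[P] 𝕜) • x = x
  mul_smul' : ∀ (ξ η : Ω →ₘ[P] 𝕜) (x : E), (ξ * η) • x = ξ • η • x
  smul_add' : ∀ (ξ : Ω →ₘ[P] 𝕜) (x y : E), ξ • (x + y) = ξ • x + ξ • y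
  add_smul' : ∀ (ξ η : Ω →ₘ[P] 𝕜) (x : E), (ξ + η) • x = ξ • x + η • x

/-- The class of the indicator of a measurable set. -/
noncomputable def ind (A : Set Ω) (hA : MeasurableSet A) : Ω →ₘ[P] 𝕜 :=
  AEEqFun.mk (A.indicator fun _ => (1 : 𝕜)) ((measurable_const.indicator hA).aestronglyMeasurable)

/-- An `L⁰`-seminorm on `E`, with values in `L⁰₊(F)`, the classes of `[0, ∞)`-valued random
variables. -/
structure L0Seminorm [L0Module P 𝕜 E] where
  toFun : E → (Ω →ₘ[P] ℝ≥0)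
  smul_eq : ∀ (ξ : Ω →ₘ[P] 𝕜) (x : E), ∀ᵐ ω ∂P, toFun (ξ • x) ω = ‖ξ ω‖₊ * toFun x ω
  add_le : ∀ x y : E, ∀ᵐ ω ∂P, toFun (x + y) ω ≤ toFun x ω + toFun y ω

variable {P 𝕜 E} [L0Module P 𝕜 E]

/-- (A version of) `‖x‖_Q`, the maximum of the finitely many seminorms of `Q`. -/
noncomputable def supQ (Q : Finset (L0Seminorm P 𝕜 E)) (x : E) (ω : Ω) : ℝ≥0 :=
  Q.sup fun ρ => ρ.toFun x ω

/-- `(E, Pf)` is a random locally convex module: `⋁ ‖x‖ = 0` over `Pf` forces `x = 0`. -/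
def Separating (Pf : Set (L0Seminorm P 𝕜 E)) : Prop :=
  ∀ x : E, (∀ ρ ∈ Pf, ∀ᵐ ω ∂P, ρ.toFun x ω = 0) → x = 0

/-- `y = ∑ₙ I_{Aₙ} xₙ`. -/
def IsGlue (P : Measure Ω) (𝕜 : Type*) [RCLike 𝕜] [L0Module P 𝕜 E] {A : ℕ → Set Ω}
    (hA : IsPartition A) (x : ℕ → E) (y : E) : Prop :=
  ∀ n, ind P 𝕜 (A n) (hA.meas n) • y = ind P 𝕜 (A n) (hA.meas n) • x n

/-- `E` is σ-stable. -/
def StableModule (P : Measure Ω) (𝕜 : Type*) [RCLike 𝕜] (E : Type*) [AddCommGroup E]
    [L0Module P 𝕜 E] : Prop :=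
  ∀ (A : ℕ → Set Ω) (hA : IsPartition A) (x : ℕ → E), ∃ y, IsGlue P 𝕜 hA x y

/-- `Pf` is σ-stable: `∑ₙ I_{Aₙ} ‖·‖_{Qₙ} ∈ Pf` for all countable partitions and all sequences of
nonempty finite subfamilies `Qₙ` of `Pf`. -/
def StableFamily (Pf : Set (L0Seminorm P 𝕜 E)) : Prop :=
  ∀ (A : ℕ → Set Ω), IsPartition A → ∀ Q : ℕ → Finset (L0Seminorm P 𝕜 E),
    (∀ n, ↑(Q n) ⊆ Pf) → (∀ n, (Q n).Nonempty) →
    ∃ ρ ∈ Pf, ∀ x, ∀ n, ∀ᵐ ω ∂P, ω ∈ A n → ρ.toFun x ω = supQ (Q n) x ω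

/-- The subset `G` of `E` is σ-stable. -/
def StableSet (P : Measure Ω) (𝕜 : Type*) [RCLike 𝕜] [L0Module P 𝕜 E] (G : Set E) : Prop :=
  ∀ (A : ℕ → Set Ω) (hA : IsPartition A) (x : ℕ → E), (∀ n, x n ∈ G) →
    ∀ y, IsGlue P 𝕜 hA x y → y ∈ G

/-- The map `f : G → G` is σ-stable. -/
def StableMap (P : Measure Ω) (𝕜 : Type*) [RCLike 𝕜] [L0Module P 𝕜 E] {G : Set E}
    (f : G → G) : Prop :=
  ∀ (A : ℕ → Set Ω) (hA : IsPartition A) (x : ℕ → G) (y : G),
    IsGlue P 𝕜 hA (fun n => (x n : E)) y → IsGlue P 𝕜 hA (fun n => (f (x n) : E)) (f y)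

/-- The basic neighbourhoods of `0` of the `(ε, λ)`-topology. -/
def nbhdEps (Q : Finset (L0Seminorm P 𝕜 E)) (ε : ℝ≥0) (l : ℝ) : Set E :=
  {x | 1 - l < P.real {ω | supQ Q x ω < ε}}

/-- The basic neighbourhoods of `0` of the locally `L⁰`-convex topology. -/
def nbhdC (Q : Finset (L0Seminorm P 𝕜 E)) (ε : Ω →ₘ[P] ℝ≥0) : Set E :=
  {x | ∀ᵐ ω ∂P, supQ Q x ω < ε ω}

end definitions

section basics

variable {Ω : Type*} [MeasurableSpace Ω] {P : Measure Ω} {𝕜 : Type*} [RCLike 𝕜] {E : Type*}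
  [AddCommGroup E] [L0Module P 𝕜 E]

lemma zero_smul' (x : E) : (0 : Ω →ₘ[P] 𝕜) • x = 0 := by
  have h := L0Module.add_smul' (0 : Ω →ₘ[P] 𝕜) 0 x
  rw [add_zero] at h
  exact left_eq_add.mp h

lemma neg_one_smul' (x : E) : (-1 : Ω →ₘ[P] 𝕜) • x = -x := by
  have h := L0Module.add_smul' (1 : Ω →ₘ[P] 𝕜) (-1) x
  rw [add_neg_cancel, zero_smul', L0Module.one_smul'] at h
  exact (neg_eq_of_add_eq_zero_right h.symm).symm

lemma smul_sub' (ξ : Ω →ₘ[P] 𝕜) (x y : E) : ξ • (x - y) = ξ • x - ξ • y := by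
  have h := L0Module.smul_add' ξ (x - y) y
  rw [sub_add_cancel] at h
  rw [h, add_sub_cancel_right]

lemma measurable_supQ (Q : Finset (L0Seminorm P 𝕜 E)) (x : E) : Measurable (supQ Q x) := by
  classical
  unfold supQ
  induction Q using Finset.induction_on with
  | empty => simp
  | insert ρ Q hρ ih =>
    simp only [Finset.sup_insert]
    exact (ρ.toFun x).measurable.sup ih

lemma supQ_add (Q : Finset (L0Seminorm P 𝕜 E)) (x y : E) :
    ∀ᵐ ω ∂P, supQ Q (x + y) ω ≤ supQ Q x ω + supQ Q y ω := by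
  have h : ∀ᵐ ω ∂P, ∀ ρ ∈ Q, ρ.toFun (x + y) ω ≤ ρ.toFun x ω + ρ.toFun y ω := by
    rw [Filter.eventually_all_finset]
    exact fun ρ _ => ρ.add_le x y
  filter_upwards [h] with ω hω
  refine Finset.sup_le fun ρ hρ => (hω ρ hρ).trans (add_le_add ?_ ?_)
  · exact Finset.le_sup (f := fun ρ : L0Seminorm P 𝕜 E => ρ.toFun x ω) hρ
  · exact Finset.le_sup (f := fun ρ : L0Seminorm P 𝕜 E => ρ.toFun y ω) hρ

lemma coe_neg_one : ∀ᵐ ω ∂P, ((-1 : Ω →ₘ[P] 𝕜) : Ω → 𝕜) ω = -1 := by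
  filter_upwards [AEEqFun.coeFn_neg (1 : Ω →ₘ[P] 𝕜), AEEqFun.coeFn_one (α := Ω) (β := 𝕜) (μ := P)]
    with ω h1 h2
  rw [h1, Pi.neg_apply, h2, Pi.one_apply]

lemma supQ_neg (Q : Finset (L0Seminorm P 𝕜 E)) (x : E) :
    ∀ᵐ ω ∂P, supQ Q (-x) ω = supQ Q x ω := by
  have h : ∀ᵐ ω ∂P, ∀ ρ ∈ Q, ρ.toFun (-x) ω = ρ.toFun x ω := by
    rw [Filter.eventually_all_finset]
    intro ρ _
    filter_upwards [ρ.smul_eq (-1) x, coe_neg_one (P := P) (𝕜 := 𝕜)] with ω h1 h2
    rw [← neg_one_smul' (P := P) (𝕜 := 𝕜) x, h1, h2]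
    simp
  filter_upwards [h] with ω hω
  exact Finset.sup_congr rfl hω

lemma supQ_zero (Q : Finset (L0Seminorm P 𝕜 E)) : ∀ᵐ ω ∂P, supQ Q (0 : E) ω = 0 := by
  have h : ∀ᵐ ω ∂P, ∀ ρ ∈ Q, ρ.toFun (0 : E) ω = 0 := by
    rw [Filter.eventually_all_finset]
    intro ρ _
    filter_upwards [ρ.smul_eq 0 0, AEEqFun.coeFn_zero (α := Ω) (β := 𝕜) (μ := P)] with ω h1 h2
    rw [zero_smul'] at h1
    rw [h1, h2]
    simp
  filter_upwards [h] with ω hω
  unfold supQ
  rw [Finset.sup_congr rfl hω]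
  exact le_antisymm (Finset.sup_le fun _ _ => le_rfl) bot_le

lemma supQ_mono {Q Q' : Finset (L0Seminorm P 𝕜 E)} (h : Q ⊆ Q') (x : E) (ω : Ω) :
    supQ Q x ω ≤ supQ Q' x ω := Finset.sup_mono h

lemma ind_coe {A : Set Ω} (hA : MeasurableSet A) :
    ∀ᵐ ω ∂P, (ind P 𝕜 A hA : Ω → 𝕜) ω = A.indicator (fun _ => (1 : 𝕜)) ω :=
  AEEqFun.coeFn_mk _ _

/-- If `I_A y = I_A x` then `‖y - x₀‖_Q = ‖x - x₀‖_Q` on `A`. -/
lemma supQ_glue {A : Set Ω} (hA : MeasurableSet A) {x y : E} (x₀ : E)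
    (h : ind P 𝕜 A hA • y = ind P 𝕜 A hA • x) (Q : Finset (L0Seminorm P 𝕜 E)) :
    ∀ᵐ ω ∂P, ω ∈ A → supQ Q (y - x₀) ω = supQ Q (x - x₀) ω := by
  have h' : ind P 𝕜 A hA • (y - x₀) = ind P 𝕜 A hA • (x - x₀) := by
    rw [smul_sub', smul_sub', h]
  have h1 : ∀ᵐ ω ∂P, ∀ ρ ∈ Q, ω ∈ A → ρ.toFun (y - x₀) ω = ρ.toFun (x - x₀) ω := by
    rw [Filter.eventually_all_finset]
    intro ρ _
    filter_upwards [ρ.smul_eq (ind P 𝕜 A hA) (y - x₀), ρ.smul_eq (ind P 𝕜 A hA) (x - x₀),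
      ind_coe (P := P) (𝕜 := 𝕜) hA] with ω e1 e2 e3 hω
    rw [h', e3, Set.indicator_of_mem hω, nnnorm_one, one_mul] at e1
    rw [e3, Set.indicator_of_mem hω, nnnorm_one, one_mul] at e2
    rw [← e1, ← e2]
  filter_upwards [h1] with ω hω hA'
  exact Finset.sup_congr rfl fun ρ hρ => hω ρ hρ hA'

end basics

section topologies

variable {Ω : Type*} [MeasurableSpace Ω] {P : Measure Ω} {𝕜 : Type*} [RCLike 𝕜] {E : Type*}
  [AddCommGroup E] [L0Module P 𝕜 E]

/-- The neighbourhood base of `0` of the `(ε, λ)`-topology, as an additive group filter basis. -/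
@[instance_reducible] def basisEps [IsProbabilityMeasure P] (Pf : Set (L0Seminorm P 𝕜 E)) : AddGroupFilterBasis E :=
  addGroupFilterBasisOfComm
    {U | ∃ Q : Finset (L0Seminorm P 𝕜 E), ↑Q ⊆ Pf ∧ ∃ ε : ℝ≥0, 0 < ε ∧
      ∃ l : ℝ, 0 < l ∧ l < 1 ∧ U = nbhdEps Q ε l}
    ⟨_, ∅, by simp, 1, one_pos, 1 / 2, by norm_num, by norm_num, rfl⟩
    (by
      classical
      rintro _ _ ⟨Q, hQ, ε, hε, l, hl, hl1, rfl⟩ ⟨Q', hQ', ε', hε', l', hl', hl1', rfl⟩
      refine ⟨_, ⟨Q ∪ Q', by rw [Finset.coe_union]; exact Set.union_subset hQ hQ',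
        min ε ε', lt_min hε hε', min l l', lt_min hl hl', (min_le_left _ _).trans_lt hl1, rfl⟩, ?_⟩
      intro x hx
      have hx' : 1 - min l l' < P.real {ω | supQ (Q ∪ Q') x ω < min ε ε'} := hx
      refine ⟨?_, ?_⟩
      · refine lt_of_le_of_lt (sub_le_sub_left (min_le_left l l') 1) (lt_of_lt_of_le hx' ?_)
        refine measureReal_mono (fun ω hω => ?_) (measure_ne_top _ _)
        exact (supQ_mono Finset.subset_union_left x ω).trans_lt (lt_of_lt_of_le hω (min_le_left _ _))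
      · refine lt_of_le_of_lt (sub_le_sub_left (min_le_right l l') 1) (lt_of_lt_of_le hx' ?_)
        refine measureReal_mono (fun ω hω => ?_) (measure_ne_top _ _)
        exact (supQ_mono Finset.subset_union_right x ω).trans_lt (lt_of_lt_of_le hω (min_le_right _ _)))
    (by
      rintro _ ⟨Q, hQ, ε, hε, l, hl, hl1, rfl⟩
      show 1 - l < P.real {ω | supQ Q 0 ω < ε}
      have : P.real {ω | supQ Q (0 : E) ω < ε} = 1 := by
        rw [measureReal_congr (t := Set.univ)]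
        · simp
        · filter_upwards [supQ_zero (P := P) (𝕜 := 𝕜) Q] with ω hω
          refine eq_true ?_
          show supQ Q (0 : E) ω < ε
          rw [hω]
          exact hε
      rw [this]
      linarith)
    (by
      rintro _ ⟨Q, hQ, ε, hε, l, hl, hl1, rfl⟩
      refine ⟨_, ⟨Q, hQ, ε / 2, half_pos hε, l / 2, half_pos hl, by linarith, rfl⟩, ?_⟩
      rintro _ ⟨x, hx, y, hy, rfl⟩
      have hx' : 1 - l / 2 < P.real {ω | supQ Q x ω < ε / 2} := hx
      have hy' : 1 - l / 2 < P.real {ω | supQ Q y ω < ε / 2} := hy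
      show 1 - l < P.real {ω | supQ Q (x + y) ω < ε}
      have hmx : MeasurableSet {ω | supQ Q x ω < ε / 2} :=
        measurableSet_lt (measurable_supQ Q x) measurable_const
      have hmy : MeasurableSet {ω | supQ Q y ω < ε / 2} :=
        measurableSet_lt (measurable_supQ Q y) measurable_const
      have h1 := measureReal_union_add_inter (μ := P) (s := {ω | supQ Q x ω < ε / 2}) hmy
      have h2 : P.real ({ω | supQ Q x ω < ε / 2} ∪ {ω | supQ Q y ω < ε / 2}) ≤ 1 := measureReal_le_one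
      have h3 : P.real ({ω | supQ Q x ω < ε / 2} ∩ {ω | supQ Q y ω < ε / 2}) ≤
          P.real {ω | supQ Q (x + y) ω < ε} := by
        refine ENNReal.toReal_mono (measure_ne_top _ _) (measure_mono_ae ?_)
        filter_upwards [supQ_add Q x y] with ω hω hxy
        have a1 : supQ Q x ω < ε / 2 := hxy.1
        have a2 : supQ Q y ω < ε / 2 := hxy.2
        show supQ Q (x + y) ω < ε
        calc supQ Q (x + y) ω ≤ supQ Q x ω + supQ Q y ω := hω
          _ < ε / 2 + ε / 2 := add_lt_add a1 a2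
          _ = ε := add_halves ε
      linarith)
    (by
      rintro _ ⟨Q, hQ, ε, hε, l, hl, hl1, rfl⟩
      refine ⟨_, ⟨Q, hQ, ε, hε, l, hl, hl1, rfl⟩, ?_⟩
      intro x hx
      have hx' : 1 - l < P.real {ω | supQ Q x ω < ε} := hx
      show 1 - l < P.real {ω | supQ Q (-x) ω < ε}
      rwa [measureReal_congr (t := {ω | supQ Q x ω < ε})]
      filter_upwards [supQ_neg Q x] with ω hω
      show (supQ Q (-x) ω < ε) = (supQ Q x ω < ε)
      rw [hω])

/-- The neighbourhood base of `0` of the locally `L⁰`-convex topology. -/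
@[instance_reducible] def basisC (Pf : Set (L0Seminorm P 𝕜 E)) : AddGroupFilterBasis E :=
  addGroupFilterBasisOfComm
    {U | ∃ Q : Finset (L0Seminorm P 𝕜 E), ↑Q ⊆ Pf ∧ ∃ ε : Ω →ₘ[P] ℝ≥0, (∀ᵐ ω ∂P, 0 < ε ω) ∧
      U = nbhdC Q ε}
    ⟨_, ∅, by simp, 1, by
      filter_upwards [AEEqFun.coeFn_one (α := Ω) (β := ℝ≥0) (μ := P)] with ω h
      rw [h]; exact one_pos, rfl⟩
    (by
      classical
      rintro _ _ ⟨Q, hQ, ε, hε, rfl⟩ ⟨Q', hQ', ε', hε', rfl⟩
      refine ⟨_, ⟨Q ∪ Q', by rw [Finset.coe_union]; exact Set.union_subset hQ hQ',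
        ε ⊓ ε', ?_, rfl⟩, ?_⟩
      · filter_upwards [AEEqFun.coeFn_inf ε ε', hε, hε'] with ω h h1 h2
        rw [h]
        exact lt_min h1 h2
      · intro x hx
        have hx' : ∀ᵐ ω ∂P, supQ (Q ∪ Q') x ω < (ε ⊓ ε') ω := hx
        refine ⟨?_, ?_⟩
        · show ∀ᵐ ω ∂P, supQ Q x ω < ε ω
          filter_upwards [hx', AEEqFun.coeFn_inf ε ε'] with ω h h1
          rw [h1] at h
          exact (supQ_mono Finset.subset_union_left x ω).trans_lt (lt_of_lt_of_le h (min_le_left _ _))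
        · show ∀ᵐ ω ∂P, supQ Q' x ω < ε' ω
          filter_upwards [hx', AEEqFun.coeFn_inf ε ε'] with ω h h1
          rw [h1] at h
          exact (supQ_mono Finset.subset_union_right x ω).trans_lt
            (lt_of_lt_of_le h (min_le_right _ _)))
    (by
      rintro _ ⟨Q, hQ, ε, hε, rfl⟩
      show ∀ᵐ ω ∂P, supQ Q 0 ω < ε ω
      filter_upwards [hε, supQ_zero (P := P) (𝕜 := 𝕜) Q] with ω h1 h2
      rw [h2]
      exact h1)
    (by
      rintro _ ⟨Q, hQ, ε, hε, rfl⟩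
      have hhalf : Measurable fun ω => ε ω / 2 := ε.measurable.div_const 2
      refine ⟨_, ⟨Q, hQ, AEEqFun.mk (fun ω => ε ω / 2) hhalf.aestronglyMeasurable, ?_, rfl⟩, ?_⟩
      · filter_upwards [hε, AEEqFun.coeFn_mk (μ := P) (fun ω => ε ω / 2)
          hhalf.aestronglyMeasurable] with ω h1 h2
        rw [h2]
        exact half_pos h1
      · rintro _ ⟨x, hx, y, hy, rfl⟩
        have hx' : ∀ᵐ ω ∂P, supQ Q x ω < AEEqFun.mk (fun ω => ε ω / 2)
          hhalf.aestronglyMeasurable ω := hx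
        have hy' : ∀ᵐ ω ∂P, supQ Q y ω < AEEqFun.mk (fun ω => ε ω / 2)
          hhalf.aestronglyMeasurable ω := hy
        show ∀ᵐ ω ∂P, supQ Q (x + y) ω < ε ω
        filter_upwards [hx', hy', supQ_add Q x y, AEEqFun.coeFn_mk (μ := P) (fun ω => ε ω / 2)
          hhalf.aestronglyMeasurable] with ω h1 h2 h3 h4
        rw [h4] at h1 h2
        calc supQ Q (x + y) ω ≤ supQ Q x ω + supQ Q y ω := h3
          _ < ε ω / 2 + ε ω / 2 := add_lt_add h1 h2
          _ = ε ω := add_halves _)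
    (by
      rintro _ ⟨Q, hQ, ε, hε, rfl⟩
      refine ⟨_, ⟨Q, hQ, ε, hε, rfl⟩, ?_⟩
      intro x hx
      have hx' : ∀ᵐ ω ∂P, supQ Q x ω < ε ω := hx
      show ∀ᵐ ω ∂P, supQ Q (-x) ω < ε ω
      filter_upwards [hx', supQ_neg Q x] with ω h1 h2
      rwa [h2])

/-- The `(ε, λ)`-topology `𝒯_{ε,λ}`: the linear topology with the sets
`{x : P(‖x‖_Q < ε) > 1 - λ}` as neighbourhood base of `0`. -/
@[instance_reducible] def topEps [IsProbabilityMeasure P] (Pf : Set (L0Seminorm P 𝕜 E)) : TopologicalSpace E :=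
  (basisEps Pf).topology

/-- The locally `L⁰`-convex topology `𝒯_c`: the group topology with the sets
`{x : ‖x‖_Q < ε a.s.}`, `ε ∈ L⁰₊₊`, as neighbourhood base of `0`. -/
@[instance_reducible] def topC (Pf : Set (L0Seminorm P 𝕜 E)) : TopologicalSpace E :=
  (basisC Pf).topology

end topologies

section main

variable {Ω : Type*} [MeasurableSpace Ω] {P : Measure Ω} {𝕜 : Type*} [RCLike 𝕜] {E : Type*}
  [AddCommGroup E] [L0Module P 𝕜 E]

lemma continuous_induced_iff (B : AddGroupFilterBasis E) (G : Set E) (f : G → G) :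
    @Continuous G G (B.topology.induced (↑)) (B.topology.induced (↑)) f ↔
      ∀ x : G, ∀ V ∈ B, ∃ W ∈ B, ∀ y : G, (y : E) - x ∈ W → (f y : E) - f x ∈ V := by
  let := B.topology
  let : TopologicalSpace G := B.topology.induced (↑)
  have hmem : ∀ (x : E) (V : Set E) (y : E), y ∈ (fun z => x + z) '' V ↔ y - x ∈ V := by
    intro x V y
    constructor
    · rintro ⟨z, hz, rfl⟩
      simpa using hz
    · intro h
      exact ⟨y - x, h, by simp⟩
  have hbasis : ∀ x : G, (𝓝 x).HasBasis (fun V : Set E => V ∈ B)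
      (fun V => {y : G | (y : E) - x ∈ V}) := by
    intro x
    rw [nhds_induced]
    refine ((B.nhds_hasBasis (x : E)).comap (Subtype.val : G → E)).to_hasBasis ?_ ?_
    · intro V hV
      exact ⟨V, hV, fun y hy => (hmem x V y).mpr hy⟩
    · intro V hV
      exact ⟨V, hV, fun y hy => (hmem x V y).mp hy⟩
  rw [continuous_iff_continuousAt]
  refine forall_congr' fun x => ?_
  unfold ContinuousAt
  rw [(hbasis x).tendsto_iff (hbasis (f x))]
  rfl

/-- the essential supremum of an upwards directed family of sets -/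
lemma exists_essSup [IsProbabilityMeasure P] {ι : Type*} [Nonempty ι] {D : ι → Set Ω}
    (hD : ∀ i, MeasurableSet (D i)) (hdir : ∀ i j, ∃ k, (D i ∪ D j : Set Ω) ≤ᵐ[P] D k) {η : ℝ≥0∞}
    (hη : ∀ i, P (D i) ≤ η) : ∃ A, MeasurableSet A ∧ P A ≤ η ∧ ∀ i, D i ≤ᵐ[P] A := by
  set S : Set ℝ≥0∞ := Set.range fun i => P (D i) with hS
  have hSne : S.Nonempty := Set.range_nonempty _
  have hseq : ∀ j : ℕ → ι, P (⋃ n, D (j n)) ≤ sSup S := by
    intro j
    rw [measure_iUnion_eq_iSup_accumulate]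
    refine iSup_le fun n => ?_
    have : ∃ k, Set.accumulate (fun n => D (j n)) n ≤ᵐ[P] D k := by
      induction n with
      | zero =>
        refine ⟨j 0, ?_⟩
        simp only [Set.accumulate_zero_nat]
        exact Filter.EventuallyLE.rfl
      | succ n ih =>
        obtain ⟨k, hk⟩ := ih
        obtain ⟨k', hk'⟩ := hdir k (j (n + 1))
        refine ⟨k', ?_⟩
        rw [Set.accumulate_succ]
        filter_upwards [hk, hk'] with ω h1 h2 h3
        rcases h3 with h3 | h3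
        · exact h2 (Or.inl (h1 h3))
        · exact h2 (Or.inr h3)
    obtain ⟨k, hk⟩ := this
    exact (measure_mono_ae hk).trans (le_sSup ⟨k, rfl⟩)
  obtain ⟨u, -, hu, huS⟩ := exists_seq_tendsto_sSup hSne (OrderTop.bddAbove S)
  choose j hj using huS
  refine ⟨⋃ n, D (j n), MeasurableSet.iUnion fun n => hD _, (hseq j).trans (sSup_le ?_), ?_⟩
  · rintro _ ⟨i, rfl⟩
    exact hη i
  · intro i
    have h1 : sSup S ≤ P (⋃ n, D (j n)) := by
      refine le_of_tendsto hu (Eventually.of_forall fun n => ?_)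
      rw [← hj n]
      exact measure_mono (Set.subset_iUnion (fun n => D (j n)) n)
    have h2 : P (D i ∪ ⋃ n, D (j n)) ≤ sSup S := by
      refine le_trans (measure_mono ?_) (hseq fun n => Nat.casesOn n i j)
      refine Set.union_subset ?_ (Set.iUnion_subset fun n => ?_)
      · exact Set.subset_iUnion (fun n => D (Nat.casesOn n i j : ι)) 0
      · exact Set.subset_iUnion (fun n => D (Nat.casesOn n i j : ι)) (n + 1)
    have hA : MeasurableSet (⋃ n, D (j n)) := MeasurableSet.iUnion fun n => hD _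
    have h3 : P (D i \ ⋃ n, D (j n)) = 0 := by
      have h4 : D i \ (⋃ n, D (j n)) = (D i ∪ ⋃ n, D (j n)) \ ⋃ n, D (j n) := by
        rw [Set.union_sdiff_right]
      rw [h4, measure_sdiff Set.subset_union_right hA.nullMeasurableSet (measure_ne_top _ _)]
      exact tsub_eq_zero_of_le (h2.trans h1)
    exact ae_le_set.mpr h3

/-- the partition into a set and its complement -/
def two (B : Set Ω) : ℕ → Set Ω
  | 0 => B
  | 1 => Bᶜ
  | _ => ∅

lemma two_isPartition {B : Set Ω} (hB : MeasurableSet B) : IsPartition (two B) where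
  meas n := by
    match n with
    | 0 => exact hB
    | 1 => exact hB.compl
    | n + 2 => exact MeasurableSet.empty
  disj m n hmn := by
    match m, n with
    | 0, 0 => exact absurd rfl hmn
    | 0, 1 => exact disjoint_compl_right
    | 1, 0 => exact disjoint_compl_left
    | 1, 1 => exact absurd rfl hmn
    | _, n + 2 => exact Set.disjoint_empty _
    | m + 2, _ => exact Set.empty_disjoint _
  cover ω := by
    by_cases h : ω ∈ B
    · exact ⟨0, h⟩
    · exact ⟨1, h⟩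

lemma glue2 (hE : StableModule P 𝕜 E) {G : Set E} (hG : StableSet P 𝕜 G) {f : G → G}
    (hf : StableMap P 𝕜 f) {B : Set Ω} (hB : MeasurableSet B) (x y : G) :
    ∃ z : G, ind P 𝕜 B hB • (z : E) = ind P 𝕜 B hB • (x : E) ∧
      ind P 𝕜 Bᶜ hB.compl • (z : E) = ind P 𝕜 Bᶜ hB.compl • (y : E) ∧
      ind P 𝕜 B hB • (f z : E) = ind P 𝕜 B hB • (f x : E) ∧
      ind P 𝕜 Bᶜ hB.compl • (f z : E) = ind P 𝕜 Bᶜ hB.compl • (f y : E) := by
  set w : ℕ → G := fun n => if n = 0 then x else y with hw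
  obtain ⟨z, hz⟩ := hE (two B) (two_isPartition hB) (fun n => (w n : E))
  have hzG : z ∈ G := hG (two B) (two_isPartition hB) _ (fun n => (w n).2) z hz
  have hfz := hf (two B) (two_isPartition hB) w ⟨z, hzG⟩ hz
  exact ⟨⟨z, hzG⟩, hz 0, hz 1, hfz 0, hfz 1⟩

lemma exists_level [IsProbabilityMeasure P] {ε : Ω →ₘ[P] ℝ≥0} (hε : ∀ᵐ ω ∂P, 0 < ε ω) {η : ℝ≥0∞}
    (hη : 0 < η) : ∃ e : ℝ≥0, 0 < e ∧ P {ω | ε ω < e} < η := by
  have hanti : Antitone fun n : ℕ => {ω | ε ω < ((n : ℝ≥0) + 1)⁻¹} := by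
    intro m n hmn ω hω
    have hω' : ε ω < ((n : ℝ≥0) + 1)⁻¹ := hω
    refine lt_of_lt_of_le hω' ?_
    rw [inv_le_inv₀ (by positivity) (by positivity)]
    gcongr
  have hlim := tendsto_measure_iInter_atTop (μ := P)
    (s := fun n : ℕ => {ω | ε ω < ((n : ℝ≥0) + 1)⁻¹})
    (fun n => (measurableSet_lt ε.measurable measurable_const).nullMeasurableSet) hanti
    ⟨0, measure_ne_top _ _⟩
  have hzero : P (⋂ n : ℕ, {ω | ε ω < ((n : ℝ≥0) + 1)⁻¹}) = 0 := by
    refine measure_mono_null ?_ (ae_iff.mp hε)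
    intro ω hω hpos
    rw [Set.mem_iInter] at hω
    obtain ⟨n, hn⟩ := exists_nat_one_div_lt (K := ℝ≥0) hpos
    have h1 : ε ω < ((n : ℝ≥0) + 1)⁻¹ := hω n
    rw [one_div] at hn
    exact absurd h1 (not_lt.mpr hn.le)
  rw [hzero] at hlim
  obtain ⟨n, hn⟩ := (hlim.eventually (gt_mem_nhds hη)).exists
  exact ⟨((n : ℝ≥0) + 1)⁻¹, by positivity, hn⟩

/-- **Q1 of MP_6f9abf_an holds.** Let `(E, Pf)` be a random locally convex module over
`L⁰(F, 𝕜)` with `E` and `Pf` σ-stable, `G` a σ-stable subset of `E` and `f : G → G` a σ-stable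
map. If `f` is continuous for the `(ε, λ)`-topology, then `f` is continuous for the locally
`L⁰`-convex topology (relative topologies on `G`). -/
theorem result {Ω : Type*} [MeasurableSpace Ω] (P : Measure Ω) [IsProbabilityMeasure P]
    (𝕜 : Type*) [RCLike 𝕜] (E : Type*) [AddCommGroup E] [L0Module P 𝕜 E]
    (Pf : Set (L0Seminorm P 𝕜 E)) (hsep : Separating Pf) (hE : StableModule P 𝕜 E)
    (hPf : StableFamily Pf) (G : Set E) (hG : StableSet P 𝕜 G) (f : G → G)
    (hf : StableMap P 𝕜 f)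
    (hcont : @Continuous G G ((topEps Pf).induced (↑)) ((topEps Pf).induced (↑)) f) :
    @Continuous G G ((topC Pf).induced (↑)) ((topC Pf).induced (↑)) f := by
  classical
  have hcont' := (continuous_induced_iff (basisEps Pf) G f).mp hcont
  refine (continuous_induced_iff (basisC Pf) G f).mpr ?_
  rintro x₀ _ ⟨Q, hQ, ε, hε, rfl⟩
  rcases Pf.eq_empty_or_nonempty with hemp | ⟨ρ₀, hρ₀⟩
  · -- trivial case
    have hQe : Q = ∅ := by
      rw [hemp] at hQ
      exact Finset.coe_eq_empty.mp (Set.subset_empty_iff.mp hQ)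
    refine ⟨nbhdC Q ε, ⟨Q, hQ, ε, hε, rfl⟩, fun y _ => ?_⟩
    show ∀ᵐ ω ∂P, supQ Q _ ω < ε ω
    filter_upwards [hε] with ω hω
    rw [hQe]
    simpa [supQ] using hω
  -- the bad sets
  set D : G → Set Ω := fun y => {ω | ε ω ≤ supQ Q ((f y : E) - f x₀) ω} with hD
  have hDm : ∀ y, MeasurableSet (D y) := fun y =>
    measurableSet_le ε.measurable (measurable_supQ Q _)
  have stepA : ∀ k : ℕ, ∃ (Q' : Finset (L0Seminorm P 𝕜 E)) (δ : ℝ≥0), ↑Q' ⊆ Pf ∧ Q'.Nonempty ∧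
      0 < δ ∧ ∀ y : G, (∀ᵐ ω ∂P, supQ Q' ((y : E) - x₀) ω < δ) →
        P (D y) ≤ ENNReal.ofReal (2 * (1 / ((k : ℝ) + 2))) := by
    intro k
    have hk : (0 : ℝ) < 1 / ((k : ℝ) + 2) := by positivity
    have hk1 : 1 / ((k : ℝ) + 2) < 1 := by
      rw [div_lt_one (by positivity)]
      have : (0 : ℝ) ≤ k := by positivity
      linarith
    obtain ⟨e, he, hPe⟩ := exists_level hε (ENNReal.ofReal_pos.mpr hk)
    obtain ⟨_, ⟨Q', hQ', δ, hδ, l, hl, hl1, rfl⟩, hW⟩ := hcont' x₀ (nbhdEps Q e (1 / ((k : ℝ) + 2)))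
      ⟨Q, hQ, e, he, 1 / ((k : ℝ) + 2), hk, hk1, rfl⟩
    refine ⟨insert ρ₀ Q', δ, ?_, ⟨ρ₀, Finset.mem_insert_self _ _⟩, hδ, ?_⟩
    · rw [Finset.coe_insert]
      exact Set.insert_subset hρ₀ hQ'
    · intro y hy
      have h1 : (y : E) - x₀ ∈ nbhdEps Q' δ l := by
        show 1 - l < P.real {ω | supQ Q' ((y : E) - x₀) ω < δ}
        have : P.real {ω | supQ Q' ((y : E) - x₀) ω < δ} = 1 := by
          rw [measureReal_congr (t := Set.univ)]
          · simp
          · filter_upwards [hy] with ω hω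
            refine eq_true ?_
            exact (supQ_mono (Finset.subset_insert _ _) _ ω).trans_lt hω
        rw [this]
        linarith
      have h2 : 1 - 1 / ((k : ℝ) + 2) < P.real {ω | supQ Q ((f y : E) - f x₀) ω < e} := hW y h1
      have hm : MeasurableSet {ω | supQ Q ((f y : E) - f x₀) ω < e} :=
        measurableSet_lt (measurable_supQ Q _) measurable_const
      have h3 : P {ω | supQ Q ((f y : E) - f x₀) ω < e}ᶜ ≤
          ENNReal.ofReal (1 / ((k : ℝ) + 2)) := by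
        rw [← ofReal_measureReal]
        refine ENNReal.ofReal_le_ofReal ?_
        rw [probReal_compl_eq_one_sub hm]
        linarith
      have h4 : D y ⊆ {ω | supQ Q ((f y : E) - f x₀) ω < e}ᶜ ∪ {ω | ε ω < e} := by
        intro ω hω
        by_cases h : ε ω < e
        · exact Or.inr h
        · left
          have hω' : ε ω ≤ supQ Q ((f y : E) - f x₀) ω := hω
          exact fun hlt : supQ Q ((f y : E) - f x₀) ω < e =>
            absurd (lt_of_le_of_lt hω' hlt) h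
      calc P (D y) ≤ P ({ω | supQ Q ((f y : E) - f x₀) ω < e}ᶜ ∪ {ω | ε ω < e}) := measure_mono h4
        _ ≤ P {ω | supQ Q ((f y : E) - f x₀) ω < e}ᶜ + P {ω | ε ω < e} := measure_union_le _ _
        _ ≤ ENNReal.ofReal (1 / ((k : ℝ) + 2)) + ENNReal.ofReal (1 / ((k : ℝ) + 2)) :=
          add_le_add h3 hPe.le
        _ = ENNReal.ofReal (2 * (1 / ((k : ℝ) + 2))) := by
          rw [← ENNReal.ofReal_add hk.le hk.le, two_mul]
  choose Qk δk hQk hQkne hδk hPk using stepA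
  -- the essential suprema of the bad sets
  have stepB : ∀ k : ℕ, ∃ A, MeasurableSet A ∧ P A ≤ ENNReal.ofReal (2 * (1 / ((k : ℝ) + 2))) ∧
      ∀ y : G, (∀ᵐ ω ∂P, supQ (Qk k) ((y : E) - x₀) ω < δk k) → D y ≤ᵐ[P] A := by
    intro k
    have hne : Nonempty {y : G // ∀ᵐ ω ∂P, supQ (Qk k) ((y : E) - x₀) ω < δk k} := by
      refine ⟨⟨x₀, ?_⟩⟩
      rw [sub_self]
      filter_upwards [supQ_zero (P := P) (𝕜 := 𝕜) (Qk k)] with ω hω
      rw [hω]
      exact hδk k
    have hdir : ∀ y₁ y₂ : {y : G // ∀ᵐ ω ∂P, supQ (Qk k) ((y : E) - x₀) ω < δk k},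
        ∃ y₃ : {y : G // ∀ᵐ ω ∂P, supQ (Qk k) ((y : E) - x₀) ω < δk k},
        (D y₁.1 ∪ D y₂.1 : Set Ω) ≤ᵐ[P] D y₃.1 := by
      rintro ⟨y₁, hy₁⟩ ⟨y₂, hy₂⟩
      obtain ⟨z, hz1, hz2, hz3, hz4⟩ := glue2 hE hG hf (hDm y₁) y₁ y₂
      refine ⟨⟨z, ?_⟩, ?_⟩
      · filter_upwards [supQ_glue _ (x₀ : E) hz1 (Qk k), supQ_glue _ (x₀ : E) hz2 (Qk k), hy₁, hy₂]
          with ω h1 h2 h3 h4
        by_cases hω : ω ∈ D y₁
        · rw [h1 hω]; exact h3
        · rw [h2 hω]; exact h4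
      · filter_upwards [supQ_glue _ (f x₀ : E) hz3 Q, supQ_glue _ (f x₀ : E) hz4 Q] with ω h1 h2 h3
        show ε ω ≤ supQ Q ((f z : E) - f x₀) ω
        by_cases hω : ω ∈ D y₁
        · rw [h1 hω]; exact hω
        · rw [h2 hω]
          rcases h3 with h3 | h3
          · exact absurd h3 hω
          · exact h3
    obtain ⟨A, hA, hPA, hle⟩ := exists_essSup (P := P)
      (ι := {y : G // ∀ᵐ ω ∂P, supQ (Qk k) ((y : E) - x₀) ω < δk k}) (D := fun y => D y.1)
      (fun y => hDm y.1) hdir (fun y => hPk k y.1 y.2)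
    exact ⟨A, hA, hPA, fun y hy => hle ⟨y, hy⟩⟩
  choose A hAm hPA hAle using stepB
  -- the partition
  set N : Set Ω := ⋂ k, A k with hN
  have hNnull : P N = 0 := by
    have hlim : Tendsto (fun k : ℕ => ENNReal.ofReal (2 * (1 / ((k : ℝ) + 2)))) atTop (𝓝 0) := by
      rw [← ENNReal.ofReal_zero]
      refine (ENNReal.continuous_ofReal.tendsto 0).comp ?_
      have h1 : Tendsto (fun k : ℕ => (1 : ℝ) / ((k : ℝ) + 2)) atTop (𝓝 0) :=
        tendsto_const_nhds.div_atTop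
          (tendsto_atTop_add_const_right _ _ tendsto_natCast_atTop_atTop)
      simpa using h1.const_mul 2
    exact le_antisymm (ge_of_tendsto' hlim fun k =>
      (measure_mono (Set.iInter_subset _ k)).trans (hPA k)) bot_le
  set S : ℕ → Set Ω := fun k => (A k)ᶜ ∪ N with hS
  have hSm : ∀ k, MeasurableSet (S k) := fun k =>
    (hAm k).compl.union (MeasurableSet.iInter hAm)
  have hB : IsPartition (disjointed S) := by
    refine ⟨fun n => MeasurableSet.disjointed hSm n, fun m n h => disjoint_disjointed S h, ?_⟩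
    intro ω
    have : ω ∈ ⋃ n, disjointed S n := by
      rw [iUnion_disjointed]
      by_cases h : ω ∈ N
      · exact Set.mem_iUnion.mpr ⟨0, Or.inr h⟩
      · rw [hN, Set.mem_iInter] at h
        push Not at h
        obtain ⟨k, hk⟩ := h
        exact Set.mem_iUnion.mpr ⟨k, Or.inl hk⟩
    exact Set.mem_iUnion.mp this
  obtain ⟨ρ, hρ, hρQ⟩ := hPf (disjointed S) hB Qk hQk hQkne
  -- the index of the cell
  choose κ hκ using hB.cover
  have hκ' : ∀ k ω, ω ∈ disjointed S k → κ ω = k := by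
    intro k ω hω
    by_contra hne
    exact Set.disjoint_left.mp (hB.disj _ _ hne) (hκ ω) hω
  have hκm : Measurable κ := by
    refine measurable_to_countable' fun k => ?_
    have : κ ⁻¹' {k} = disjointed S k := by
      ext ω
      constructor
      · intro h
        have h' : κ ω = k := h
        rw [← h']
        exact hκ ω
      · intro h
        exact hκ' k ω h
    rw [this]
    exact hB.meas k
  have hδm : Measurable fun ω => δk (κ ω) := (measurable_from_nat (f := δk)).comp hκm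
  set δ : Ω →ₘ[P] ℝ≥0 := AEEqFun.mk (fun ω => δk (κ ω)) hδm.aestronglyMeasurable with hδ
  have hδcoe : ∀ᵐ ω ∂P, δ ω = δk (κ ω) := AEEqFun.coeFn_mk _ _
  refine ⟨nbhdC {ρ} δ, ⟨{ρ}, by simpa using hρ, δ, ?_, rfl⟩, ?_⟩
  · filter_upwards [hδcoe] with ω hω
    rw [hω]
    exact hδk _
  · intro y hy
    have hy' : ∀ᵐ ω ∂P, supQ {ρ} ((y : E) - x₀) ω < δ ω := hy
    -- the local statement on each cell
    have hloc : ∀ k : ℕ, ∀ᵐ ω ∂P, ω ∈ disjointed S k → supQ Q ((f y : E) - f x₀) ω < ε ω := by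
      intro k
      obtain ⟨z, hz1, hz2, hz3, hz4⟩ := glue2 hE hG hf (hB.meas k) y x₀
      have hzY : ∀ᵐ ω ∂P, supQ (Qk k) ((z : E) - x₀) ω < δk k := by
        filter_upwards [supQ_glue _ (x₀ : E) hz1 (Qk k), supQ_glue _ (x₀ : E) hz2 (Qk k), hy',
          hρQ ((y : E) - x₀) k, hδcoe, supQ_zero (P := P) (𝕜 := 𝕜) (E := E) (Qk k)]
          with ω h1 h2 h3 h4 h5 h6
        by_cases hω : ω ∈ disjointed S k
        · rw [h1 hω, ← h4 hω]
          have e1 : supQ {ρ} ((y : E) - x₀) ω = ρ.toFun ((y : E) - x₀) ω := by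
            simp [supQ]
          rw [e1, h5, hκ' k ω hω] at h3
          exact h3
        · rw [h2 hω, sub_self, h6]
          exact hδk k
      filter_upwards [hAle k z hzY, supQ_glue _ (f x₀ : E) hz3 Q, measure_eq_zero_iff_ae_notMem.mp hNnull]
        with ω h1 h2 h3 hω
      rw [← h2 hω]
      have hSk : ω ∈ S k := disjointed_le S k hω
      have hnA : ω ∉ A k := by
        rcases hSk with h | h
        · exact h
        · exact absurd h h3
      by_contra hlt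
      exact hnA (h1 (not_lt.mp hlt))
    show ∀ᵐ ω ∂P, supQ Q ((f y : E) - f x₀) ω < ε ω
    filter_upwards [ae_all_iff.mpr hloc] with ω hω
    exact hω (κ ω) (hκ ω)

end main

end Pool.Agent.Results.MP_6f9abf_an.StableContinuity
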